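import Pool.Agent.helper32.Cant.Basic
import Pool.Agent.helper72.Cant.ENT

set_option autoImplicit false

/-!
# MP_3c0a64_an, module SL: the abstract shift lemma
-/

namespace Pool.Agent.helper32.Cant

open Finset

section sl

variable {Ω : Type} [Fintype Ω] {α β : Type}

/-- reindexing by an involution which preserves the weights -/
private theorem sl_reindex {μ : Ω → ℝ} (Ψ : Ω → Ω) (hΨ : ∀ ω, Ψ (Ψ ω) = ω)
    (hμΨ : ∀ ω, μ (Ψ ω) = μ ω) (f : Ω → ℝ) : ∑ y, μ y * f y = ∑ y, μ y * f (Ψ y) := by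
  rw [← Equiv.sum_comp (⟨Ψ, Ψ, hΨ, hΨ⟩ : Equiv Ω Ω) (fun y => μ y * f y)]
  exact Finset.sum_congr rfl fun y _ => by
    show μ (Ψ y) * f (Ψ y) = _
    rw [hμΨ]

/-- the mean of `μ / m` over an atom is at most one -/
private theorem sl_atom_le {μ : Ω → ℝ} (hμ : ∀ ω, 0 ≤ μ ω) {γ : Type} (Y : Ω → γ) (a : γ) :
    ∑ ω, μ ω / pm μ Y ω * ind (Y ω = a) ≤ 1 := by
  set m : ℝ := ∑ y, μ y * ind (Y y = a) with hm
  have hm0 : 0 ≤ m := Finset.sum_nonneg fun y _ => mul_nonneg (hμ y) (ind_nonneg _)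
  have h1 : ∀ ω, μ ω / pm μ Y ω * ind (Y ω = a) = (μ ω * ind (Y ω = a)) / m := by
    intro ω
    by_cases h : Y ω = a
    · have : pm μ Y ω = m := by
        rw [hm, pm, h]
      rw [this]
      ring
    · rw [ind_of_not h]
      simp
  rw [Finset.sum_congr rfl fun ω _ => h1 ω, ← Finset.sum_div, ← hm]
  exact div_self_le_one m

/-- replacing the coarse by the fine observable -/
private theorem sl_coarse {M : ℕ} {μ : Ω → ℝ} (hμ : ∀ ω, 0 ≤ μ ω) {γ η : Type} (X : Ω → γ)
    (Y : Ω → η) (u : Ω → ZMod M) (zc : ZMod M → ℕ) {F Λ : ℝ} (hF0 : 0 ≤ F) (hΛ : 0 ≤ Λ)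
    (hF : ∀ v v', zc v = zc v' → ∃ h : ℤ, v' = v + (h : ZMod M) ∧ |(h : ℝ)| ≤ F)
    {g : ZMod M → ℝ} (hg : Lip Λ g) (ω : Ω) :
    |ce μ Y (fun y => g (u y)) ω - ce μ X (fun y => g (u y)) ω|
      ≤ tv μ X Y (fun y => zc (u y)) ω + 2 * (Λ * F) := by
  classical
  -- a representative of every class
  set G : ℕ → ℝ := fun z => if h : ∃ v : ZMod M, zc v = z then g h.choose else 0 with hG
  have hG1 : ∀ z, |G z| ≤ 1 := by
    intro z
    by_cases h : ∃ v : ZMod M, zc v = z
    · simp only [hG, dif_pos h]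
      exact hg.1 _
    · simp only [hG, dif_neg h]
      simp
  have hGg : ∀ v, |g v - G (zc v)| ≤ Λ * F := by
    intro v
    have h : ∃ v' : ZMod M, zc v' = zc v := ⟨v, rfl⟩
    simp only [hG, dif_pos h]
    obtain ⟨d, hd, hd'⟩ := hF _ _ h.choose_spec
    calc |g v - g h.choose| = |g (h.choose + (d : ZMod M)) - g h.choose| := by rw [← hd]
      _ ≤ Λ * |(d : ℝ)| := hg.2 _ _
      _ ≤ Λ * F := mul_le_mul_of_nonneg_left hd' hΛ
  have hd : ∀ {κ : Type} (V : Ω → κ), |ce μ V (fun y => g (u y)) ω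
      - ce μ V (fun y => G (zc (u y))) ω| ≤ Λ * F := by
    intro κ V
    rw [← ce_sub]
    exact abs_ce_le_of hμ V _ ω (mul_nonneg hΛ hF0) fun y _ _ => hGg (u y)
  have h1 := hd Y
  have h2 := hd X
  have h3 := abs_ce_sub_le_tv (μ := μ) X Y (fun y => zc (u y)) G hG1 ω
  have h3' : |ce μ Y (fun y => G (zc (u y))) ω - ce μ X (fun y => G (zc (u y))) ω|
      ≤ tv μ X Y (fun y => zc (u y)) ω := h3
  rw [abs_le] at h1 h2 h3' ⊢
  constructor <;> linarith [h1.1, h1.2, h2.1, h2.2, h3'.1, h3'.2]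

theorem shift_lemma {M : ℕ} {μ : Ω → ℝ} (hμ : IsProb μ) (Ψ : Ω → Ω) (hΨ : ∀ ω, Ψ (Ψ ω) = ω)
    (hμΨ : ∀ ω, μ (Ψ ω) = μ ω) (u : Ω → ZMod M) (W : Ω → α) (T : Ω → β) (hWT : Ref W T)
    (hTΨ : ∀ ω ω', T ω = T ω' → T (Ψ ω) = T (Ψ ω'))
    (cw zc : ZMod M → ℕ) (hzc : ∀ v v', zc v = zc v' → cw v = cw v') (F : ℝ)
    (hF : ∀ v v', zc v = zc v' → ∃ h : ℤ, v' = v + (h : ZMod M) ∧ |(h : ℝ)| ≤ F)
    (s e : Ω → ℤ) (hs : ∀ ω ω', T ω = T ω' → s ω = s ω') {δ Λ : ℝ} (hΛ : 0 ≤ Λ)
    (hu : ∀ ω, 0 < μ ω → u (Ψ ω) = u ω + (s ω : ZMod M) + (e ω : ZMod M))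
    (he : ∀ ω, 0 < μ ω → |(e ω : ℝ)| ≤ δ) :
    ∃ B : Ω → ℝ, (∀ ω, 0 ≤ B ω) ∧
      ex μ B ≤ 2 * ex μ (tv μ (fun y => (W y, cw (u y))) (fun y => (T y, cw (u y)))
            (fun y => zc (u y)))
          + 4 * (Λ * F) + Λ * δ + 6 * ex μ (fun y => ind (cw (u (Ψ y)) ≠ cw (u y))) ∧
      ∀ ω, 0 < μ ω → ∀ g : ZMod M → ℝ, Lip Λ g →
        |atomMean μ W (fun y => cw (u y)) (fun y => g (u y)) (W (Ψ ω)) (cw (u ω))
            - ce μ (fun y => (W y, cw (u y))) (fun y => g (u y + (s ω : ZMod M))) ω| ≤ B ω := by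
  classical
  have hμ0 := hμ.1
  -- a point of positive mass
  obtain ⟨ω0, hω0⟩ : ∃ ω, 0 < μ ω := by
    by_contra hcon
    push Not at hcon
    have : ∑ ω, μ ω ≤ 0 := Finset.sum_nonpos fun ω _ => hcon ω
    rw [hμ.2] at this
    linarith
  have hδ : 0 ≤ δ := le_trans (abs_nonneg _) (he ω0 hω0)
  have hF0 : 0 ≤ F := by
    obtain ⟨h, _, h2⟩ := hF (u ω0) (u ω0) rfl
    exact le_trans (abs_nonneg _) h2
  set Y : Ω → β × ℕ := fun y => (T y, cw (u y)) with hY
  set X : Ω → α × ℕ := fun y => (W y, cw (u y)) with hX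
  set Z : Ω → ℕ := fun y => zc (u y) with hZ
  -- the exchanged mass
  set bt : Ω → ℝ := fun ω => ∑ y, μ y * (ind (T y = T ω) *
    |ind (cw (u y) = cw (u ω)) - ind (cw (u (Ψ y)) = cw (u ω))|) with hbt
  have hbt0 : ∀ ω, 0 ≤ bt ω := fun ω => Finset.sum_nonneg fun y _ =>
    mul_nonneg (hμ0 y) (mul_nonneg (ind_nonneg _) (abs_nonneg _))
  have hm0 : ∀ ω, 0 ≤ pm μ Y ω := fun ω => pm_nonneg hμ0 Y ω
  have htv0 : ∀ ω, 0 ≤ tv μ X Y Z ω := fun ω => tv_nonneg μ X Y Z ω
  have hΛδ : 0 ≤ Λ * δ := mul_nonneg hΛ hδ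
  have hΛF : 0 ≤ Λ * F := mul_nonneg hΛ hF0
  set C : Ω → ℝ := fun ω => Λ * δ + 2 * (bt ω / pm μ Y ω) + tv μ X Y Z ω + tv μ X Y Z (Ψ ω)
    + 4 * (Λ * F) with hC
  have hC0 : ∀ ω, 0 ≤ C ω := fun ω => by
    have := div_nonneg (hbt0 ω) (hm0 ω)
    have := htv0 ω
    have := htv0 (Ψ ω)
    simp only [hC]
    linarith
  set B : Ω → ℝ := fun ω => if cw (u (Ψ ω)) ≠ cw (u ω) then 2 else C ω with hB
  refine ⟨B, fun ω => ?_, ?_, fun ω hω g hg => ?_⟩
  · simp only [hB]
    split_ifs
    · norm_num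
    · exact hC0 ω
  · -- the expectation of `B`
    have hBle : ∀ ω, 0 < μ ω → B ω ≤ 2 * ind (cw (u (Ψ ω)) ≠ cw (u ω)) + C ω := by
      intro ω _
      simp only [hB]
      split_ifs with h
      · rw [ind_of h]
        linarith [hC0 ω]
      · rw [ind_of_not h]
        simp
    have h1 := ex_mono hμ0 hBle
    have h2 : ex μ (fun ω => 2 * ind (cw (u (Ψ ω)) ≠ cw (u ω)) + C ω)
        = 2 * ex μ (fun ω => ind (cw (u (Ψ ω)) ≠ cw (u ω))) + (Λ * δ
          + 2 * ex μ (fun ω => bt ω / pm μ Y ω) + ex μ (tv μ X Y Z)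
          + ex μ (fun ω => tv μ X Y Z (Ψ ω)) + 4 * (Λ * F)) := by
      rw [ex_add, ex_smul]
      congr 1
      simp only [hC]
      have hs2 : ex μ (fun ω => 2 * (bt ω / pm μ Y ω)) = 2 * ex μ (fun ω => bt ω / pm μ Y ω) :=
        ex_smul _ _ _
      rw [ex_add, ex_add, ex_add, ex_add, hs2, ex_const hμ, ex_const hμ]
    have h3 : ex μ (fun ω => tv μ X Y Z (Ψ ω)) = ex μ (tv μ X Y Z) :=
      (sl_reindex Ψ hΨ hμΨ _).symm
    have h4 : ex μ (fun ω => bt ω / pm μ Y ω)
        ≤ 2 * ex μ (fun ω => ind (cw (u (Ψ ω)) ≠ cw (u ω))) := by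
      have e1 : ex μ (fun ω => bt ω / pm μ Y ω) = ∑ y, μ y * ∑ ω, (μ ω / pm μ Y ω) *
          (ind (T y = T ω) * |ind (cw (u y) = cw (u ω)) - ind (cw (u (Ψ y)) = cw (u ω))|) := by
        rw [ex]
        have : ∀ ω, μ ω * (bt ω / pm μ Y ω) = ∑ y, μ y * ((μ ω / pm μ Y ω) *
            (ind (T y = T ω) * |ind (cw (u y) = cw (u ω)) - ind (cw (u (Ψ y)) = cw (u ω))|)) := by
          intro ω
          simp only [hbt]
          rw [Finset.sum_div, Finset.mul_sum]
          exact Finset.sum_congr rfl fun y _ => by ring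
        rw [Finset.sum_congr rfl fun ω _ => this ω, Finset.sum_comm]
        exact Finset.sum_congr rfl fun y _ => by rw [Finset.mul_sum]
      rw [e1, ex, Finset.mul_sum]
      refine Finset.sum_le_sum fun y _ => ?_
      have e2 : ∑ ω, (μ ω / pm μ Y ω) * (ind (T y = T ω) *
          |ind (cw (u y) = cw (u ω)) - ind (cw (u (Ψ y)) = cw (u ω))|)
          ≤ 2 * ind (cw (u (Ψ y)) ≠ cw (u y)) := by
        by_cases h : cw (u (Ψ y)) = cw (u y)
        · rw [ind_of_not (not_not.mpr h)]
          refine le_of_eq ?_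
          rw [mul_zero]
          refine Finset.sum_eq_zero fun ω _ => ?_
          rw [h]
          simp
        · rw [ind_of h, mul_one]
          have e3 : ∀ ω ∈ (univ : Finset Ω), (μ ω / pm μ Y ω) * (ind (T y = T ω) *
              |ind (cw (u y) = cw (u ω)) - ind (cw (u (Ψ y)) = cw (u ω))|)
              ≤ μ ω / pm μ Y ω * ind (Y ω = (T y, cw (u y)))
                + μ ω / pm μ Y ω * ind (Y ω = (T y, cw (u (Ψ y)))) := by
            intro ω _
            rw [← mul_add]
            refine mul_le_mul_of_nonneg_left ?_ (div_nonneg (hμ0 ω) (hm0 ω))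
            by_cases hT : T y = T ω
            · rw [ind_of hT, one_mul]
              have i1 : ind (Y ω = (T y, cw (u y))) = ind (cw (u y) = cw (u ω)) := by
                refine ind_congr ?_
                simp only [hY, Prod.mk.injEq]
                constructor
                · rintro ⟨_, h⟩
                  exact h.symm
                · intro h
                  exact ⟨hT.symm, h.symm⟩
              have i2 : ind (Y ω = (T y, cw (u (Ψ y)))) = ind (cw (u (Ψ y)) = cw (u ω)) := by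
                refine ind_congr ?_
                simp only [hY, Prod.mk.injEq]
                constructor
                · rintro ⟨_, h⟩
                  exact h.symm
                · intro h
                  exact ⟨hT.symm, h.symm⟩
              rw [i1, i2]
              have n1 := ind_nonneg (cw (u y) = cw (u ω))
              have n2 := ind_nonneg (cw (u (Ψ y)) = cw (u ω))
              rw [abs_le]
              constructor <;> linarith
            · rw [ind_of_not hT, zero_mul]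
              exact add_nonneg (ind_nonneg _) (ind_nonneg _)
          refine le_trans (Finset.sum_le_sum e3) ?_
          rw [Finset.sum_add_distrib]
          have a1 := sl_atom_le hμ0 Y (T y, cw (u y))
          have a2 := sl_atom_le hμ0 Y (T y, cw (u (Ψ y)))
          linarith
      calc μ y * _ ≤ μ y * (2 * ind (cw (u (Ψ y)) ≠ cw (u y))) :=
            mul_le_mul_of_nonneg_left e2 (hμ0 y)
        _ = 2 * (μ y * ind (cw (u (Ψ y)) ≠ cw (u y))) := by ring
    rw [h2, h3] at h1
    linarith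
  · -- the pointwise bound
    by_cases hc : cw (u (Ψ ω)) ≠ cw (u ω)
    · have hBω : B ω = 2 := by
        simp only [hB]
        rw [if_pos hc]
      rw [hBω]
      have h1 : |atomMean μ W (fun y => cw (u y)) (fun y => g (u y)) (W (Ψ ω)) (cw (u ω))|
          ≤ 1 := by
        rw [atomMean, abs_div]
        refine div_le_one_of_le₀ ?_ (abs_nonneg _)
        refine le_trans (Finset.abs_sum_le_sum_abs _ _) ?_
        refine le_trans ?_ (le_abs_self _)
        refine Finset.sum_le_sum fun y _ => ?_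
        rw [abs_mul, abs_of_nonneg (mul_nonneg (hμ0 y) (ind_nonneg _))]
        exact mul_le_of_le_one_right (mul_nonneg (hμ0 y) (ind_nonneg _)) (hg.1 _)
      have h2 : |ce μ X (fun y => g (u y + (s ω : ZMod M))) ω| ≤ 1 :=
        abs_ce_le_of hμ0 X _ ω zero_le_one fun y _ _ => hg.1 _
      rw [abs_le] at h1 h2 ⊢
      constructor <;> linarith [h1.1, h1.2, h2.1, h2.2]
    · have hBω : B ω = C ω := by
        simp only [hB]
        rw [if_neg hc]
      push Not at hc
      rw [hBω]
      -- (iii)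
      have h3 : atomMean μ W (fun y => cw (u y)) (fun y => g (u y)) (W (Ψ ω)) (cw (u ω))
          = ce μ X (fun y => g (u y)) (Ψ ω) := by
        have i : ∀ y, ind (W y = W (Ψ ω) ∧ cw (u y) = cw (u ω)) = ind (X y = X (Ψ ω)) := by
          intro y
          refine ind_congr ?_
          simp only [hX, Prod.mk.injEq, hc]
        simp only [atomMean, ce, pm, i]
      rw [h3]
      -- (i)
      have h4 := sl_coarse hμ0 X Y u zc hF0 hΛ hF hg (Ψ ω)
      have hgs : Lip Λ (fun v => g (v + (s ω : ZMod M))) := by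
        refine ⟨fun v => hg.1 _, fun v h => ?_⟩
        have := hg.2 (v + (s ω : ZMod M)) h
        have e : v + (s ω : ZMod M) + (h : ZMod M) = v + (h : ZMod M) + (s ω : ZMod M) := by ring
        rw [e] at this
        exact this
      have h5 := sl_coarse hμ0 X Y u zc hF0 hΛ hF hgs ω
      -- (ii)
      have hYΨ : ∀ y, ind (Y (Ψ y) = Y (Ψ ω)) = ind (T y = T ω) * ind (cw (u (Ψ y)) = cw (u ω)) := by
        intro y
        have hT : T (Ψ y) = T (Ψ ω) ↔ T y = T ω := by
          constructor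
          · intro h
            have := hTΨ _ _ h
            rwa [hΨ, hΨ] at this
          · exact hTΨ _ _
        by_cases h1 : T y = T ω
        · rw [ind_of h1, one_mul]
          refine ind_congr ?_
          simp only [hY, Prod.mk.injEq, hT, h1, true_and, hc]
        · rw [ind_of_not h1, zero_mul]
          refine ind_of_not ?_
          simp only [hY, Prod.mk.injEq, hT, h1, false_and, not_false_eq_true]
      have hYω : ∀ y, ind (Y y = Y ω) = ind (T y = T ω) * ind (cw (u y) = cw (u ω)) := by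
        intro y
        by_cases h1 : T y = T ω
        · rw [ind_of h1, one_mul]
          refine ind_congr ?_
          simp only [hY, Prod.mk.injEq, h1, true_and]
        · rw [ind_of_not h1, zero_mul]
          refine ind_of_not ?_
          simp only [hY, Prod.mk.injEq, h1, false_and, not_false_eq_true]
      set m' : ℝ := ∑ y, μ y * (ind (T y = T ω) * ind (cw (u (Ψ y)) = cw (u ω))) with hm'
      set m : ℝ := ∑ y, μ y * (ind (T y = T ω) * ind (cw (u y) = cw (u ω))) with hm
      have hpm' : pm μ Y (Ψ ω) = m' := by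
        rw [pm, sl_reindex Ψ hΨ hμΨ]
        simp only [hYΨ, hm']
      have hpm : pm μ Y ω = m := by
        simp only [pm, hYω, hm]
      have hm'pos : 0 < m' := by
        rw [← hpm']
        refine pm_pos hμ0 Y ?_
        rw [hμΨ]
        exact hω
      have hmpos : 0 < m := by
        rw [← hpm]
        exact pm_pos hμ0 Y hω
      set A' : ℝ := ∑ y, μ y * (ind (T y = T ω) * ind (cw (u (Ψ y)) = cw (u ω))) * g (u (Ψ y))
        with hA'
      set A1 : ℝ := ∑ y, μ y * (ind (T y = T ω) * ind (cw (u (Ψ y)) = cw (u ω)))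
        * g (u y + (s ω : ZMod M)) with hA1
      set A : ℝ := ∑ y, μ y * (ind (T y = T ω) * ind (cw (u y) = cw (u ω)))
        * g (u y + (s ω : ZMod M)) with hA
      have hce' : ce μ Y (fun y => g (u y)) (Ψ ω) = A' / m' := by
        rw [ce, hpm']
        congr 1
        have : ∀ y, μ y * ind (Y y = Y (Ψ ω)) * g (u y) = μ y * (ind (Y y = Y (Ψ ω)) * g (u y)) :=
          fun y => by ring
        rw [Finset.sum_congr rfl fun y _ => this y,
          sl_reindex Ψ hΨ hμΨ (fun y => ind (Y y = Y (Ψ ω)) * g (u y))]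
        simp only [hYΨ, hA']
        exact Finset.sum_congr rfl fun y _ => by ring
      have hce : ce μ Y (fun y => g (u y + (s ω : ZMod M))) ω = A / m := by
        rw [ce, hpm]
        congr 1
        simp only [hYω, hA]
      have hAA1 : |A' - A1| ≤ Λ * δ * m' := by
        rw [hA', hA1, ← Finset.sum_sub_distrib, hm', Finset.mul_sum]
        refine le_trans (Finset.abs_sum_le_sum_abs _ _) (Finset.sum_le_sum fun y _ => ?_)
        rw [← mul_sub, abs_mul]
        have hn : 0 ≤ μ y * (ind (T y = T ω) * ind (cw (u (Ψ y)) = cw (u ω))) :=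
          mul_nonneg (hμ0 y) (mul_nonneg (ind_nonneg _) (ind_nonneg _))
        rw [abs_of_nonneg hn]
        by_cases hy : 0 < μ y
        · by_cases hT : T y = T ω
          · have hsy : s y = s ω := hs _ _ hT
            have hd : |g (u (Ψ y)) - g (u y + (s ω : ZMod M))| ≤ Λ * δ := by
              rw [hu y hy, hsy]
              exact le_trans (hg.2 _ _) (mul_le_mul_of_nonneg_left (he y hy) hΛ)
            rw [mul_comm (Λ * δ)]
            exact mul_le_mul_of_nonneg_left hd hn
          · rw [ind_of_not hT]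
            simp
        · have : μ y = 0 := le_antisymm (not_lt.mp hy) (hμ0 y)
          rw [this]
          simp
      have hbtω : bt ω = ∑ y, μ y * (ind (T y = T ω) *
          |ind (cw (u y) = cw (u ω)) - ind (cw (u (Ψ y)) = cw (u ω))|) := rfl
      have hA1A : |A1 - A| ≤ bt ω := by
        rw [hA1, hA, ← Finset.sum_sub_distrib, hbtω]
        refine le_trans (Finset.abs_sum_le_sum_abs _ _) (Finset.sum_le_sum fun y _ => ?_)
        have e : μ y * (ind (T y = T ω) * ind (cw (u (Ψ y)) = cw (u ω))) * g (u y + (s ω : ZMod M))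
            - μ y * (ind (T y = T ω) * ind (cw (u y) = cw (u ω))) * g (u y + (s ω : ZMod M))
            = (μ y * ind (T y = T ω)) * ((ind (cw (u (Ψ y)) = cw (u ω))
              - ind (cw (u y) = cw (u ω))) * g (u y + (s ω : ZMod M))) := by ring
        rw [e, abs_mul, abs_of_nonneg (mul_nonneg (hμ0 y) (ind_nonneg _)), abs_mul,
          abs_sub_comm, ← mul_assoc (μ y)]
        refine mul_le_mul_of_nonneg_left ?_ (mul_nonneg (hμ0 y) (ind_nonneg _))
        exact mul_le_of_le_one_right (abs_nonneg _) (hg.1 _)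
      have hmm : |m' - m| ≤ bt ω := by
        rw [hm', hm, ← Finset.sum_sub_distrib, hbtω]
        refine le_trans (Finset.abs_sum_le_sum_abs _ _) (Finset.sum_le_sum fun y _ => ?_)
        have e : μ y * (ind (T y = T ω) * ind (cw (u (Ψ y)) = cw (u ω)))
            - μ y * (ind (T y = T ω) * ind (cw (u y) = cw (u ω)))
            = (μ y * ind (T y = T ω)) * (ind (cw (u (Ψ y)) = cw (u ω))
              - ind (cw (u y) = cw (u ω))) := by ring
        rw [e, abs_mul, abs_of_nonneg (mul_nonneg (hμ0 y) (ind_nonneg _)),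
          abs_sub_comm, ← mul_assoc (μ y)]
      have hA1m : |A1| ≤ m' := by
        rw [hA1, hm']
        refine le_trans (Finset.abs_sum_le_sum_abs _ _) (Finset.sum_le_sum fun y _ => ?_)
        have hn : 0 ≤ μ y * (ind (T y = T ω) * ind (cw (u (Ψ y)) = cw (u ω))) :=
          mul_nonneg (hμ0 y) (mul_nonneg (ind_nonneg _) (ind_nonneg _))
        rw [abs_mul, abs_of_nonneg hn]
        exact mul_le_of_le_one_right hn (hg.1 _)
      have h6 : |A' / m' - A / m| ≤ Λ * δ + 2 * (bt ω / m) := by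
        have e : A' / m' - A / m = (A' - A1) / m' + (A1 - A) / m + (A1 / m') * ((m - m') / m) := by
          field_simp
          ring
        have t1 : |(A' - A1) / m'| ≤ Λ * δ := by
          rw [abs_div, abs_of_pos hm'pos, div_le_iff₀ hm'pos]
          exact hAA1
        have t2 : |(A1 - A) / m| ≤ bt ω / m := by
          rw [abs_div, abs_of_pos hmpos]
          exact div_le_div_of_nonneg_right hA1A hmpos.le
        have t3 : |(A1 / m') * ((m - m') / m)| ≤ bt ω / m := by
          rw [abs_mul, abs_div, abs_of_pos hm'pos, abs_div, abs_of_pos hmpos]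
          have u1 : |A1| / m' ≤ 1 := (div_le_one hm'pos).mpr hA1m
          have u2 : |m - m'| / m ≤ bt ω / m := by
            refine div_le_div_of_nonneg_right ?_ hmpos.le
            rw [abs_sub_comm]
            exact hmm
          calc |A1| / m' * (|m - m'| / m) ≤ 1 * (bt ω / m) :=
                mul_le_mul u1 u2 (div_nonneg (abs_nonneg _) hmpos.le) zero_le_one
            _ = bt ω / m := one_mul _
        rw [e]
        calc _ ≤ |(A' - A1) / m'| + |(A1 - A) / m| + |(A1 / m') * ((m - m') / m)| :=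
              abs_add_three _ _ _
          _ ≤ _ := by linarith
      rw [← hce', ← hce, ← hpm] at h6
      have h5' : |ce μ Y (fun y => g (u y + (s ω : ZMod M))) ω
          - ce μ X (fun y => g (u y + (s ω : ZMod M))) ω| ≤ tv μ X Y Z ω + 2 * (Λ * F) := h5
      have h4' : |ce μ Y (fun y => g (u y)) (Ψ ω) - ce μ X (fun y => g (u y)) (Ψ ω)|
          ≤ tv μ X Y Z (Ψ ω) + 2 * (Λ * F) := h4
      simp only [hC]
      rw [abs_le] at h4' h5' h6 ⊢
      constructor <;> linarith [h4'.1, h4'.2, h5'.1, h5'.2, h6.1, h6.2]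

end sl

end Pool.Agent.helper32.Cant
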