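import Pool.Agent.helper35.Cant.MU
import Pool.Agent.helper35.Cant.UF
import Pool.Agent.helper44.Cant.GEO
import Pool.Agent.helper44.Cant.UB
import Pool.Agent.helper57.Cant.EX
import Pool.Agent.helper72.Cant.ENT

set_option autoImplicit false

/-!
# MP_3c0a64_an, module PAIR
-/

namespace Pool.Agent.helper32.Cant

open Finset

/-- the sum of the conditional probabilities against a function of `u` -/
private theorem pair_sum {n : ℕ} (c : Cfg n) {α : Type} (X : Sp n → α) (x : Sp n)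
    (f : ZMod (3 ^ (2 * n)) → ℝ) :
    ∑ v, ce (mu c) X (fun y => ind (uu c y = v)) x * f v
      = ce (mu c) X (fun y => f (uu c y)) x := by
  have h1 : ∀ v : ZMod (3 ^ (2 * n)), ce (mu c) X (fun y => ind (uu c y = v)) x * f v
      = ce (mu c) X (fun y => f v * ind (uu c y = v)) x := by
    intro v
    rw [ce_smul, mul_comm]
  rw [Finset.sum_congr rfl fun v _ => h1 v, ← ce_sum]
  refine ce_congr_fun (isProb_mu c).1 X x fun y _ _ => ?_
  rw [Finset.sum_eq_single (uu c y)]
  · rw [ind_of rfl, mul_one]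
  · intro v _ hv
    rw [ind_of_not (fun h => hv h.symm), mul_zero]
  · intro h
    exact absurd (Finset.mem_univ _) h

private theorem pair_isProb {n : ℕ} (c : Cfg n) {α : Type} (X : Sp n → α) {x : Sp n}
    (hx : 0 < mu c x) : IsProb (fun v => ce (mu c) X (fun y => ind (uu c y = v)) x) := by
  refine ⟨fun v => ce_nonneg (isProb_mu c).1 X x fun y _ _ => ind_nonneg _, ?_⟩
  have h := pair_sum c X x (fun _ => 1)
  simp only [mul_one] at h
  rw [h]
  exact ce_const (isProb_mu c).1 X hx 1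

/-- the difference of two shifts -/
private theorem pair_shf {n : ℕ} (c : Cfg n) {q h A k j i : ℕ} (hqA : q ≤ A)
    (hj : j + A ≤ n) (hi : i < n) (hij : i + j = k + 2 * h) (hk : k + 2 * h + q + 1 ≤ 2 * n)
    (z z' : Sp2 n) (hw : z.1.1.2 = z'.1.1.2) (hw' : z.2 = z'.2) (hb : bR c j z.1 = bR c j z'.1)
    (hag : agree i z.1.1.2 z.2) (hdi : differ i z.1.1.2 z.2)
    (hfar : bR c (j + q) z.1 + 2 ≤ bR c (j + q) z'.1 ∨ bR c (j + q) z'.1 + 2 ≤ bR c (j + q) z.1) :
    (3 : ℝ) ^ (2 * n - k - 2 * h - q - 1) ≤ |((shf c A j z - shf c A j z' : ℤ) : ℝ)| ∧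
      |((shf c A j z - shf c A j z' : ℤ) : ℝ)| ≤ 2 * 3 ^ (2 * n - k - 2 * h) := by
  have e1 : shf c A j z - shf c A j z' = 3 ^ (n - j - A)
      * (((bR c (j + A) z.1 : ℕ) : ℤ) - ((bR c (j + A) z'.1 : ℕ) : ℤ)) * (E z.2 - E z.1.1.2) := by
    rw [shf, shf, hw, hw', hb]
    push_cast
    ring
  have hlow := le_abs_E_sub hi hag hdi
  have hup := abs_E_sub_le hi.le hag
  set a : ℕ := bR c (j + A) z.1 with ha
  set a' : ℕ := bR c (j + A) z'.1 with ha'
  have d1 : bR c (j + q) z.1 = a / 3 ^ (A - q) := by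
    have := bR_div c (show j + q ≤ j + A by omega) hj z.1
    rw [this]
    congr 2
    omega
  have d1' : bR c (j + q) z'.1 = a' / 3 ^ (A - q) := by
    have := bR_div c (show j + q ≤ j + A by omega) hj z'.1
    rw [this]
    congr 2
    omega
  have d2 : bR c j z.1 = a / 3 ^ A := by
    have := bR_div c (show j ≤ j + A by omega) hj z.1
    rw [this]
    congr 2
    omega
  have d2' : bR c j z'.1 = a' / 3 ^ A := by
    have := bR_div c (show j ≤ j + A by omega) hj z'.1
    rw [this]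
    congr 2
    omega
  rw [d1, d1'] at hfar
  rw [d2, d2'] at hb
  have hP : 0 < 3 ^ (A - q) := pow_pos (by norm_num) _
  have hPA : 0 < 3 ^ A := pow_pos (by norm_num) _
  -- lower and upper bounds of the difference of the digits
  have hlo : (3 ^ (A - q) : ℤ) ≤ |(a : ℤ) - (a' : ℤ)| := by
    have key : ∀ x y : ℕ, x / 3 ^ (A - q) + 2 ≤ y / 3 ^ (A - q) →
        (3 ^ (A - q) : ℤ) ≤ (y : ℤ) - (x : ℤ) := by
      intro x y hxy
      have h1 : x < (x / 3 ^ (A - q) + 1) * 3 ^ (A - q) := (Nat.div_lt_iff_lt_mul hP).mp (Nat.lt_succ_self _)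
      have h2 : y / 3 ^ (A - q) * 3 ^ (A - q) ≤ y := Nat.div_mul_le_self _ _
      have h3 : (x / 3 ^ (A - q) + 2) * 3 ^ (A - q) ≤ y / 3 ^ (A - q) * 3 ^ (A - q) :=
        Nat.mul_le_mul_right _ hxy
      have h4 : x + 3 ^ (A - q) ≤ y := by nlinarith
      have h5 : ((x + 3 ^ (A - q) : ℕ) : ℤ) ≤ (y : ℤ) := by exact_mod_cast h4
      push_cast at h5
      linarith
    rcases hfar with hf | hf
    · have := key _ _ hf
      rw [abs_sub_comm]
      exact le_trans this (le_abs_self _)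
    · have := key _ _ hf
      exact le_trans this (le_abs_self _)
  have hhi : |(a : ℤ) - (a' : ℤ)| ≤ 3 ^ A := by
    have h1 : a = a / 3 ^ A * 3 ^ A + a % 3 ^ A := (Nat.div_add_mod' a _).symm
    have h2 : a' = a' / 3 ^ A * 3 ^ A + a' % 3 ^ A := (Nat.div_add_mod' a' _).symm
    have h3 : a % 3 ^ A < 3 ^ A := Nat.mod_lt _ hPA
    have h4 : a' % 3 ^ A < 3 ^ A := Nat.mod_lt _ hPA
    rw [hb] at h1
    have h1' : (a : ℤ) = ((a' / 3 ^ A * 3 ^ A : ℕ) : ℤ) + ((a % 3 ^ A : ℕ) : ℤ) := by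
      exact_mod_cast h1
    have h2' : (a' : ℤ) = ((a' / 3 ^ A * 3 ^ A : ℕ) : ℤ) + ((a' % 3 ^ A : ℕ) : ℤ) := by
      exact_mod_cast h2
    have h3' : ((a % 3 ^ A : ℕ) : ℤ) < 3 ^ A := by exact_mod_cast h3
    have h4' : ((a' % 3 ^ A : ℕ) : ℤ) < 3 ^ A := by exact_mod_cast h4
    have h5 : (0 : ℤ) ≤ ((a % 3 ^ A : ℕ) : ℤ) := Int.natCast_nonneg _
    have h6 : (0 : ℤ) ≤ ((a' % 3 ^ A : ℕ) : ℤ) := Int.natCast_nonneg _
    rw [abs_le]
    constructor <;> linarith
  have e2 : |shf c A j z - shf c A j z'| = 3 ^ (n - j - A) * |(a : ℤ) - (a' : ℤ)|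
      * |E z.2 - E z.1.1.2| := by
    rw [e1, abs_mul, abs_mul, abs_of_nonneg (by positivity : (0 : ℤ) ≤ 3 ^ (n - j - A))]
  have e3 : (3 : ℤ) ^ (2 * n - k - 2 * h - q - 1) ≤ |shf c A j z - shf c A j z'| := by
    rw [e2]
    have : (3 : ℤ) ^ (2 * n - k - 2 * h - q - 1)
        = 3 ^ (n - j - A) * 3 ^ (A - q) * 3 ^ (n - 1 - i) := by
      rw [← pow_add, ← pow_add]
      congr 1
      omega
    rw [this]
    exact mul_le_mul (mul_le_mul_of_nonneg_left hlo (by positivity)) hlow (by positivity)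
      (by positivity)
  have e4 : |shf c A j z - shf c A j z'| ≤ 3 ^ (2 * n - k - 2 * h) := by
    rw [e2]
    have : (3 : ℤ) ^ (2 * n - k - 2 * h)
        = 3 ^ (n - j - A) * 3 ^ A * 3 ^ (n - i) := by
      rw [← pow_add, ← pow_add]
      congr 1
      omega
    rw [this]
    refine mul_le_mul (mul_le_mul_of_nonneg_left hhi (by positivity)) ?_ (by positivity)
      (by positivity)
    linarith
  constructor
  · exact_mod_cast e3
  · have e5 : |((shf c A j z - shf c A j z' : ℤ) : ℝ)| ≤ 3 ^ (2 * n - k - 2 * h) := by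
      exact_mod_cast e4
    have : (0 : ℝ) ≤ 3 ^ (2 * n - k - 2 * h) := by positivity
    linarith

theorem pair_bound {n : ℕ} (c : Cfg n) {q h A k j i : ℕ} (hq : 1 ≤ q) (hh : 2 ≤ h)
    (hA : 4 * h + q ≤ A) (hk : A ≤ k) (hkn : k + A ≤ n) (hj : j + A ≤ n) (hi : i < n)
    (hij : i + j = k + 2 * h) :
    ex (mu c) (fun x => ncf (mu c) (obs c (k - A) j) (bR c (j + q)) x
        * Uf c (obs c (k - A) j) k x)
      ≤ 120 / 3 ^ h + 48 * 3 ^ (2 * h + q) * √(iota c A k j + ell c A i k j)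
        + 4 * alpha c i := by
  obtain ⟨B, hB0, hBex, hB⟩ := exchange c hh (show 4 * h ≤ A by omega) hk hkn hj hi hij
  have hμ := isProb_mu c
  have hμ2 := isProb_mu2 c i
  set X : Sp n → ZMod (3 ^ (2 * n)) × Word n × ℕ × ℕ := obs c (k - A) j with hX
  set b : Sp n → ℕ := bR c (j + q) with hb
  set V : Sp2 n → (ZMod (3 ^ (2 * n)) × Word n × ℕ × ℕ) × Word n := fun z => (X z.1, z.2) with hV
  set D : Sp2 n → ℝ := fun z => ind (differ i z.1.1.2 z.2) with hD
  have hD0 : ∀ z, 0 ≤ D z := fun z => ind_nonneg _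
  have hD1 : ∀ z, D z ≤ 1 := fun z => ind_le_one _
  have hU0 : ∀ x, 0 ≤ Uf c X k x := fun x => Uf_nonneg c X k x
  have hU2 : ∀ x, Uf c X k x ≤ 2 := fun x => Uf_le_two c X k x
  set P : ℝ := 3 ^ (2 * h + q) with hP
  have hP1 : 1 ≤ P := one_le_pow₀ (by norm_num)
  set Q : ℝ := 1 / 3 ^ h with hQ
  have hQ0 : 0 < Q := by positivity
  set Ed : Sp n → ℝ := ce (mu c) X (fun y => ind (edge n k h (uu c y))) with hEd
  have hEd0 : ∀ x, 0 ≤ Ed x := fun x => ce_nonneg hμ.1 X x fun y _ _ => ind_nonneg _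
  have hk2 : k + 2 * h + q + 1 ≤ 2 * n := by omega
  have hmu_of : ∀ z : Sp2 n, 0 < mu2 c i z → 0 < mu c z.1 := fun z hz =>
    (mu_pos_iff c z.1).mpr ((mu2_pos_iff c i z).mp hz).1
  -- the pointwise bound
  have hpt : ∀ y y' : Sp2 n, 0 < mu2 c i y → 0 < mu2 c i y' → V y = V y' →
      ind (b y.1 + 2 ≤ b y'.1 ∨ b y'.1 + 2 ≤ b y.1) * (D y * Uf c X k y.1)
        ≤ 2 * P * (B y + B y') + 4 * Q + 2 * Ed y.1 := by
    intro y y' hy hy' hVV
    have hr0 : 0 ≤ 2 * P * (B y + B y') + 4 * Q + 2 * Ed y.1 := by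
      have := hB0 y
      have := hB0 y'
      have := hEd0 y.1
      have : 0 ≤ 2 * P * (B y + B y') := by positivity
      linarith
    by_cases hfar : b y.1 + 2 ≤ b y'.1 ∨ b y'.1 + 2 ≤ b y.1
    swap
    · rw [ind_of_not hfar, zero_mul]
      exact hr0
    by_cases hdi : differ i y.1.1.2 y.2
    swap
    · have : D y = 0 := ind_of_not hdi
      rw [this, zero_mul, mul_zero]
      exact hr0
    have hDy : D y = 1 := ind_of hdi
    rw [ind_of hfar, hDy, one_mul, one_mul]
    have hXX : X y.1 = X y'.1 := congrArg Prod.fst hVV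
    have hww : y.2 = y'.2 := (Prod.ext_iff.mp hVV).2
    have hag : agree i y.1.1.2 y.2 := ((mu2_pos_iff c i y).mp hy).2.2
    have hobs : y.1.1.2 = y'.1.1.2 ∧ bR c j y.1 = bR c j y'.1 := by
      have h := hXX
      simp only [hX, obs, Prod.mk.injEq] at h
      exact ⟨h.2.1, h.2.2.2⟩
    obtain ⟨hs1, hs2⟩ := pair_shf c (show q ≤ A by omega) hj hi hij hk2 y y' hobs.1 hww hobs.2
      hag hdi hfar
    have hub := uniform_bound hh hk2 (fun v => ce (mu c) X (fun x => ind (uu c x = v)) y.1)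
      (pair_isProb c X (hmu_of y hy)) (shf c A j y) (shf c A j y') (B y + B y') hs1 hs2
      (by
        intro g hg
        have h1 := hB y y' hy hy' hXX hww g hg
        have h2 := pair_sum c X y.1 (fun v => g (v + (shf c A j y : ZMod (3 ^ (2 * n)))))
        have h3 := pair_sum c X y.1 (fun v => g (v + (shf c A j y' : ZMod (3 ^ (2 * n)))))
        rw [h2, h3]
        exact h1)
    have h4 : ∀ m : ℕ, ∑ v, ce (mu c) X (fun x => ind (uu c x = v)) y.1
        * ind (cell n (k + 1) v = m) = ce (mu c) X (fun x => ind (cell n (k + 1) (uu c x) = m)) y.1 :=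
      fun m => pair_sum c X y.1 (fun v => ind (cell n (k + 1) v = m))
    have h5 := pair_sum c X y.1 (fun v => ind (edge n k h v))
    simp only [h4, h5] at hub
    have hUe : Uf c X k y.1 = ∑ t ∈ range (3 ^ k), ∑ a ∈ range 2,
        |ce (mu c) X (fun x => ind (cell n (k + 1) (uu c x) = 3 * t + a)) y.1
          - ce (mu c) X (fun x => ind (cell n (k + 1) (uu c x) = 3 * t + a + 1)) y.1| := rfl
    rw [← hUe] at hub
    have hEdy : ce (mu c) X (fun y => ind (edge n k h (uu c y))) y.1 = Ed y.1 := rfl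
    rw [hEdy] at hub
    calc Uf c X k y.1 ≤ _ := hub
      _ = 2 * P * (B y + B y') + 4 * Q + 2 * Ed y.1 := by
        rw [hP, hQ]
        ring
  -- `gam` times the non-uniformity
  set gam : Sp2 n → ℝ := fun z => ncf (mu2 c i) V (fun z => b z.1) z * D z with hgam
  have hgU : ∀ z, 0 < mu2 c i z → gam z * Uf c X k z.1
      ≤ 4 * P * ce (mu2 c i) V B z + 4 * Q
        + 2 * ce (mu2 c i) V (fun y => Ed y.1) z := by
    intro z hz
    have e1 : gam z * Uf c X k z.1 = ce (mu2 c i) V (fun y => ce (mu2 c i) V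
        (fun y' => ind (b y.1 + 2 ≤ b y'.1 ∨ b y'.1 + 2 ≤ b y.1) * (D y * Uf c X k y.1)) z) z := by
      have i1 : ∀ y, 0 < mu2 c i y → V y = V z →
          ce (mu2 c i) V (fun y' => ind (b y.1 + 2 ≤ b y'.1 ∨ b y'.1 + 2 ≤ b y.1)
            * (D y * Uf c X k y.1)) z
          = (D z * Uf c X k z.1) * ce (mu2 c i) V
            (fun y' => ind (b y.1 + 2 ≤ b y'.1 ∨ b y'.1 + 2 ≤ b y.1)) z := by
        intro y _ hyz
        have hXX : X y.1 = X z.1 := congrArg Prod.fst hyz
        have hww : y.2 = z.2 := (Prod.ext_iff.mp hyz).2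
        have hw : y.1.1.2 = z.1.1.2 := by
          have h := hXX
          simp only [hX, obs, Prod.mk.injEq] at h
          exact h.2.1
        have hDD : D y = D z := by
          simp only [hD, hw, hww]
        rw [hDD, Uf_eq c X k hXX, ← ce_smul]
        exact ce_congr_fun hμ2.1 V z fun y' _ _ => mul_comm _ _
      rw [ce_congr_fun hμ2.1 V z i1, ce_smul]
      simp only [hgam, ncf]
      ring
    have e2 : ce (mu2 c i) V (fun y => ce (mu2 c i) V
        (fun y' => ind (b y.1 + 2 ≤ b y'.1 ∨ b y'.1 + 2 ≤ b y.1) * (D y * Uf c X k y.1)) z) z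
        ≤ ce (mu2 c i) V (fun y => 2 * P * B y + (2 * P * ce (mu2 c i) V B z + 4 * Q)
            + 2 * Ed y.1) z := by
      refine ce_mono hμ2.1 V z fun y hy hyz => ?_
      have e3 : ce (mu2 c i) V
          (fun y' => ind (b y.1 + 2 ≤ b y'.1 ∨ b y'.1 + 2 ≤ b y.1) * (D y * Uf c X k y.1)) z
          ≤ ce (mu2 c i) V (fun y' => (2 * P) * B y' + (2 * P * B y + 4 * Q + 2 * Ed y.1)) z := by
        refine ce_mono hμ2.1 V z fun y' hy' hyz' => ?_
        have := hpt y y' hy hy' (hyz.trans hyz'.symm)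
        linarith
      rw [ce_add, ce_smul, ce_const hμ2.1 V hz] at e3
      linarith
    rw [ce_add, ce_add, ce_smul, ce_smul, ce_const hμ2.1 V hz] at e2
    rw [e1]
    linarith
  have hexB : ex (mu2 c i) (fun z => gam z * Uf c X k z.1)
      ≤ 4 * P * ex (mu2 c i) B + 16 * Q := by
    have h1 := ex_mono hμ2.1 hgU
    have h2 : ex (mu2 c i) (fun z => 4 * P * ce (mu2 c i) V B z + 4 * Q
        + 2 * ce (mu2 c i) V (fun y => Ed y.1) z)
        = 4 * P * ex (mu2 c i) B + 4 * Q + 2 * ex (mu c) Ed := by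
      have i1 : ex (mu2 c i) (fun z => 4 * P * ce (mu2 c i) V B z)
          = 4 * P * ex (mu2 c i) B := by
        rw [ex_smul]
        congr 1
        exact ex_ce hμ2.1 V B
      have i2 : ex (mu2 c i) (fun z => 2 * ce (mu2 c i) V (fun y => Ed y.1) z)
          = 2 * ex (mu c) Ed := by
        rw [ex_smul]
        congr 1
        rw [← ex_mu2_fst c i Ed]
        exact ex_ce hμ2.1 V _
      rw [ex_add, ex_add, i1, i2, ex_const hμ2]
    have h3 : ex (mu c) Ed ≤ 6 * Q := by
      have i1 : ex (mu c) Ed = ex (mu c) (fun x => ind (edge n k h (uu c x))) :=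
        ex_ce hμ.1 X _
      rw [i1, ex_uu c (fun v => ind (edge n k h v)), div_le_iff₀ (by positivity)]
      have := edge_card hh (show k + h ≤ 2 * n by omega)
      refine le_trans this (le_of_eq ?_)
      rw [hQ]
      ring
    rw [h2] at h1
    linarith
  -- the entropies
  set zc : Sp2 n → ℕ := fun z => cell n (k + A) (uu c z.1) with hzc
  set X1 : Sp2 n → ZMod (3 ^ (2 * n)) × Word n × ℕ × ℕ := fun z => X z.1 with hX1
  set Xp : Sp2 n → ZMod (3 ^ (2 * n)) × Word n × ℕ × ℕ := fun z => obs c (k - A) (j + A) z.1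
    with hXp
  set Xq : Sp2 n → ZMod (3 ^ (2 * n)) × Word n × ℕ × ℕ := fun z => obs c (k + A) (j + A) z.1
    with hXq
  set w' : Sp2 n → Word n := fun z => z.2 with hw'
  set io : ℝ := iota c A k j with hio
  set el : ℝ := ell c A i k j with hel
  have hrefp : Ref X1 Xp := fun z z' hz =>
    ref_obs c (le_refl (k - A)) (by omega) (show j ≤ j + A by omega) z.1 z'.1 hz
  have hrefq : Ref Xp Xq := fun z z' hz =>
    ref_obs c (show k - A ≤ k + A by omega) (by omega) (le_refl (j + A)) z.1 z'.1 hz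
  have hio_eq : io = Hc (mu2 c i) zc X1 - Hc (mu2 c i) zc Xp := by
    have h1 : Hc (mu2 c i) zc X1 = Hc (mu c) (fun x => cell n (k + A) (uu c x)) X :=
      Hc_mu2_fst c i X (fun x => cell n (k + A) (uu c x))
    have h2 : Hc (mu2 c i) zc Xp
        = Hc (mu c) (fun x => cell n (k + A) (uu c x)) (obs c (k - A) (j + A)) :=
      Hc_mu2_fst c i (obs c (k - A) (j + A)) (fun x => cell n (k + A) (uu c x))
    rw [h1, h2, hio, iota]
  have hel_eq : el = Hc (mu2 c i) w' X1 - Hc (mu2 c i) w' Xq := rfl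
  have hio0 : 0 ≤ io := by
    rw [hio_eq]
    have := Hc_anti hμ2 zc hrefp
    linarith
  have hkap : ex (mu2 c i) (tv (mu2 c i) X1 (fun z => (Xp z, w' z)) zc) ≤ 2 * √(io + el) := by
    have hr : Ref X1 (fun z => (Xp z, w' z)) := fun z z' hz => hrefp z z' (congrArg Prod.fst hz)
    refine le_trans (ex_tv_le hμ2 zc hr) ?_
    refine mul_le_mul_of_nonneg_left (Real.sqrt_le_sqrt ?_) (by norm_num)
    have h1 := Hc_comm hμ2 zc Xp w'
    have h2 := Hc_anti hμ2 w' hrefp
    have h3 : Hc (mu2 c i) w' (fun y => (Xp y, zc y)) = Hc (mu2 c i) w' Xq := by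
      have hiff : ∀ z z' : Sp2 n, (Xp z, zc z) = (Xp z', zc z') ↔ Xq z = Xq z' := by
        intro z z'
        constructor
        · intro h
          simp only [hXp, hzc, obs, Prod.mk.injEq] at h
          simp only [hXq, obs, Prod.mk.injEq]
          exact ⟨h.1.1, h.1.2.1, h.2, h.1.2.2.2⟩
        · intro h
          have h1 := hrefq z z' h
          simp only [hXq, obs, Prod.mk.injEq] at h
          simp only [Prod.mk.injEq]
          exact ⟨h1, h.2.2.1⟩
      refine Hc_congr hiff fun z z' => ?_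
      rw [hiff z z']
    rw [hio_eq, hel_eq]
    linarith
  have htvb : ex (mu2 c i) (tv (mu2 c i) X1 V (fun z => b z.1)) ≤ 2 * √(io + el) := by
    have hr : Ref X1 V := fun z z' hz => congrArg Prod.fst hz
    refine le_trans (ex_tv_le hμ2 _ hr) ?_
    refine mul_le_mul_of_nonneg_left (Real.sqrt_le_sqrt ?_) (by norm_num)
    have h1 := Hc_comm hμ2 (fun z : Sp2 n => b z.1) X1 w'
    have hr2 : Ref (fun y : Sp2 n => (X1 y, b y.1)) Xq := by
      intro z z' h
      have h1 := hrefp z z' (hrefq z z' h)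
      have h2 : bR c (j + A) z.1 = bR c (j + A) z'.1 := by
        simp only [hXq, obs, Prod.mk.injEq] at h
        exact h.2.2.2
      have h3 : b z.1 = b z'.1 := by
        simp only [hb]
        rw [bR_div c (show j + q ≤ j + A by omega) hj z.1,
          bR_div c (show j + q ≤ j + A by omega) hj z'.1, h2]
      simp only [Prod.mk.injEq]
      exact ⟨h1, h3⟩
    have h2 := Hc_anti hμ2 w' hr2
    have h3 : V = fun y => (X1 y, w' y) := rfl
    rw [h3, h1]
    rw [hel_eq]
    linarith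
  set S : ℝ := √(io + el) with hS
  have hS0 : 0 ≤ S := Real.sqrt_nonneg _
  -- the expectation of `gam * Uf`
  have hA3 : (3 : ℝ) ^ (3 * h + q) / 3 ^ A ≤ Q := by
    rw [hQ, div_le_div_iff₀ (by positivity) (by positivity), one_mul, ← pow_add]
    exact pow_le_pow_right₀ (by norm_num) (by omega)
  have hgU2 : ex (mu2 c i) (fun z => gam z * Uf c X k z.1) ≤ 16 * P * S + 52 * Q := by
    have h1 : ex (mu2 c i) B ≤ 4 * S + 9 * 3 ^ h / 3 ^ A := by
      refine le_trans hBex ?_
      have := hkap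
      linarith
    have h2 : 4 * P * ex (mu2 c i) B ≤ 4 * P * (4 * S + 9 * 3 ^ h / 3 ^ A) :=
      mul_le_mul_of_nonneg_left h1 (by positivity)
    have h3 : P * (9 * 3 ^ h / 3 ^ A) ≤ 9 * Q := by
      have : P * (9 * 3 ^ h / 3 ^ A) = 9 * (3 ^ (3 * h + q) / 3 ^ A) := by
        rw [hP, show 3 * h + q = (2 * h + q) + h by ring, pow_add _ (2 * h + q) h]
        ring
      rw [this]
      linarith
    nlinarith
  -- compare with the coarse far probability
  have hncf : ∀ z : Sp2 n, ncf (mu2 c i) X1 (fun z => b z.1) z = ncf (mu c) X b z.1 := by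
    intro z
    have i1 : ∀ y : Sp2 n, ce (mu2 c i) X1
        (fun y' => ind (b y.1 + 2 ≤ b y'.1 ∨ b y'.1 + 2 ≤ b y.1)) z
        = ce (mu c) X (fun y' => ind (b y.1 + 2 ≤ b y' ∨ b y' + 2 ≤ b y.1)) z.1 := fun y =>
      ce_mu2_fst c i X (fun y' => ind (b y.1 + 2 ≤ b y' ∨ b y' + 2 ≤ b y.1)) z
    simp only [ncf, i1]
    exact ce_mu2_fst c i X (fun y => ce (mu c) X
      (fun y' => ind (b y + 2 ≤ b y' ∨ b y' + 2 ≤ b y)) z.1) z
  have hcmp : ex (mu2 c i) (fun z => (ncf (mu c) X b z.1 * Uf c X k z.1) * D z)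
      ≤ 16 * P * S + 52 * Q + 8 * S := by
    have h1 : ∀ z, 0 < mu2 c i z → (ncf (mu c) X b z.1 * Uf c X k z.1) * D z
        ≤ gam z * Uf c X k z.1 + 4 * tv (mu2 c i) X1 V (fun z => b z.1) z := by
      intro z hz
      have hr : Ref X1 V := fun z z' hz => congrArg Prod.fst hz
      have h2 := ncf_compare hμ2 hr (fun z => b z.1) hz
      rw [hncf z, abs_le] at h2
      have h3 := tv_nonneg (mu2 c i) X1 V (fun z : Sp2 n => b z.1) z
      have h4 : ncf (mu c) X b z.1 ≤ ncf (mu2 c i) V (fun z => b z.1) z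
          + 2 * tv (mu2 c i) X1 V (fun z => b z.1) z := by linarith [h2.1]
      have h5 : 0 ≤ Uf c X k z.1 * D z := mul_nonneg (hU0 _) (hD0 _)
      have h6 : Uf c X k z.1 * D z ≤ 2 := by
        have := mul_le_mul (hU2 z.1) (hD1 z) (hD0 z) (by norm_num)
        linarith
      calc (ncf (mu c) X b z.1 * Uf c X k z.1) * D z
          = ncf (mu c) X b z.1 * (Uf c X k z.1 * D z) := by ring
        _ ≤ (ncf (mu2 c i) V (fun z => b z.1) z
          + 2 * tv (mu2 c i) X1 V (fun z => b z.1) z) * (Uf c X k z.1 * D z) :=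
            mul_le_mul_of_nonneg_right h4 h5
        _ = gam z * Uf c X k z.1
          + 2 * tv (mu2 c i) X1 V (fun z => b z.1) z * (Uf c X k z.1 * D z) := by
            simp only [hgam]
            ring
        _ ≤ gam z * Uf c X k z.1 + 2 * tv (mu2 c i) X1 V (fun z => b z.1) z * 2 := by
            gcongr
        _ = _ := by ring
    have h2 := ex_mono hμ2.1 h1
    rw [ex_add, ex_smul] at h2
    have h3 : ex (mu2 c i) (fun z => tv (mu2 c i) X1 V (fun z => b z.1) z) ≤ 2 * S := htvb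
    linarith
  rw [ce_mu2_differ c i (fun x => ncf (mu c) X b x * Uf c X k x)] at hcmp
  -- replace `cntD / cnt` by one half
  have hal : ex (mu c) (fun x => ncf (mu c) X b x * Uf c X k x) * (1 / 2)
      ≤ ex (mu c) (fun x => (ncf (mu c) X b x * Uf c X k x) * (cntD c i x.1 / cnt c i x.1))
        + 2 * alpha c i := by
    have h1 : ∀ x, 0 < mu c x → (1 / 2) * (ncf (mu c) X b x * Uf c X k x)
        ≤ (ncf (mu c) X b x * Uf c X k x) * (cntD c i x.1 / cnt c i x.1)
          + 2 * |cntD c i x.1 / cnt c i x.1 - 1 / 2| := by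
      intro x _
      have n0 := ncf_nonneg hμ X b x
      have n1 := ncf_le_one hμ X b x
      have m0 : 0 ≤ ncf (mu c) X b x * Uf c X k x := mul_nonneg n0 (hU0 x)
      have m2 : ncf (mu c) X b x * Uf c X k x ≤ 2 := by
        have := mul_le_mul n1 (hU2 x) (hU0 x) zero_le_one
        linarith
      have a0 := abs_nonneg (cntD c i x.1 / cnt c i x.1 - 1 / 2)
      have a1 := neg_abs_le (cntD c i x.1 / cnt c i x.1 - 1 / 2)
      have t1 : (ncf (mu c) X b x * Uf c X k x) * |cntD c i x.1 / cnt c i x.1 - 1 / 2|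
          ≤ 2 * |cntD c i x.1 / cnt c i x.1 - 1 / 2| := mul_le_mul_of_nonneg_right m2 a0
      have t2 : (ncf (mu c) X b x * Uf c X k x) * (-|cntD c i x.1 / cnt c i x.1 - 1 / 2|)
          ≤ (ncf (mu c) X b x * Uf c X k x) * (cntD c i x.1 / cnt c i x.1 - 1 / 2) :=
        mul_le_mul_of_nonneg_left a1 m0
      linarith
    have h2 := ex_mono hμ.1 h1
    rw [ex_add] at h2
    have h3 : ex (mu c) (fun x => (1 / 2) * (ncf (mu c) X b x * Uf c X k x))
        = (1 / 2) * ex (mu c) (fun x => ncf (mu c) X b x * Uf c X k x) := ex_smul _ _ _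
    have h4 : ex (mu c) (fun x => 2 * |cntD c i x.1 / cnt c i x.1 - 1 / 2|)
        = 2 * alpha c i := by
      rw [ex_smul]
      rfl
    rw [h3, h4] at h2
    linarith
  have hfin : 8 * S ≤ 8 * P * S := by nlinarith
  have hQe : 120 / 3 ^ h = 120 * Q := by
    rw [hQ]
    ring
  rw [hQe]
  nlinarith
end Pool.Agent.helper32.Cant
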